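import Mathlib

/-!
# A graph model on `Set ℕ` with surjective pairing

We build an applicative structure on `Set ℕ` (Plotkin-Scott-Engeler graph model), in which
every continuous map `Set ℕ → Set ℕ` is of the form `x ↦ app a x`, together with a bijective
continuous pairing `Set ℕ × Set ℕ ≃ Set ℕ`.  The maps `x ↦ app a x`, with `a` in the applicative
subalgebra generated by six constants, form a monoid `N` under composition.  It is a categorical
product monoid, and it is generated by eight elements.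
-/

namespace Pool.Agent.Lib.MP_eefcda_al

/-- an injective code for pairs (finite set, number) -/
noncomputable def pr (s : Finset ℕ) (n : ℕ) : ℕ := Encodable.encode (s, n)

theorem pr_inj {s t : Finset ℕ} {m n : ℕ} (h : pr s m = pr t n) : s = t ∧ m = n := by
  have := Encodable.encode_injective h
  simpa using this

/-- application -/
def app (a b : Set ℕ) : Set ℕ := {n | ∃ s : Finset ℕ, (s : Set ℕ) ⊆ b ∧ pr s n ∈ a}

/-- continuity of a map `Set ℕ → Set ℕ` -/
def Cont (f : Set ℕ → Set ℕ) : Prop :=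
  ∀ x n, n ∈ f x ↔ ∃ s : Finset ℕ, (s : Set ℕ) ⊆ x ∧ n ∈ f (s : Set ℕ)

/-- the graph of a map -/
def gr (f : Set ℕ → Set ℕ) : Set ℕ := {m | ∃ (s : Finset ℕ) (n : ℕ), m = pr s n ∧ n ∈ f (s : Set ℕ)}

theorem app_gr {f : Set ℕ → Set ℕ} (hf : Cont f) (x : Set ℕ) : app (gr f) x = f x := by
  ext n
  rw [hf x n]
  constructor
  · rintro ⟨s, hs, t, m, h, hm⟩
    obtain ⟨rfl, rfl⟩ := pr_inj h
    exact ⟨s, hs, hm⟩
  · rintro ⟨s, hs, hn⟩
    exact ⟨s, hs, s, n, rfl, hn⟩

theorem Cont.mono {f : Set ℕ → Set ℕ} (hf : Cont f) {x y : Set ℕ} (h : x ⊆ y) : f x ⊆ f y := by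
  intro n hn
  obtain ⟨s, hs, hn⟩ := (hf x n).1 hn
  exact (hf y n).2 ⟨s, hs.trans h, hn⟩

theorem cont_id : Cont (fun x => x) := by
  intro x n
  constructor
  · intro hn
    exact ⟨{n}, by simpa using hn, by simp⟩
  · rintro ⟨s, hs, hn⟩
    exact hs hn

theorem cont_const (c : Set ℕ) : Cont (fun _ => c) := by
  intro x n
  constructor
  · intro hn
    exact ⟨∅, by simp, hn⟩
  · rintro ⟨s, -, hn⟩
    exact hn

/-- finite sets below a continuous image are below the image of a finite set -/
theorem Cont.finset {f : Set ℕ → Set ℕ} (hf : Cont f) {x : Set ℕ} (t : Finset ℕ)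
    (ht : (t : Set ℕ) ⊆ f x) : ∃ s : Finset ℕ, (s : Set ℕ) ⊆ x ∧ (t : Set ℕ) ⊆ f (s : Set ℕ) := by
  induction t using Finset.induction_on with
  | empty => exact ⟨∅, by simp, by simp⟩
  | insert a t _ ih =>
    obtain ⟨s, hs, hts⟩ := ih (fun n hn => ht (by simp at hn ⊢; exact Or.inr hn))
    obtain ⟨s', hs', ha⟩ := (hf x a).1 (ht (by simp))
    refine ⟨s ∪ s', by simp [hs, hs'], ?_⟩
    intro n hn
    rw [Finset.coe_insert, Set.mem_insert_iff] at hn
    rcases hn with rfl | hn
    · exact hf.mono (by simp) ha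
    · exact hf.mono (by simp) (hts hn)

theorem cont_app {f g : Set ℕ → Set ℕ} (hf : Cont f) (hg : Cont g) :
    Cont (fun x => app (f x) (g x)) := by
  intro x n
  constructor
  · rintro ⟨t, ht, hn⟩
    obtain ⟨s, hs, hts⟩ := hg.finset t ht
    obtain ⟨s', hs', hn'⟩ := (hf x _).1 hn
    refine ⟨s ∪ s', by simp [hs, hs'], t, hts.trans (hg.mono (by simp)), hf.mono (by simp) hn'⟩
  · rintro ⟨s, hs, t, ht, hn⟩
    exact ⟨t, ht.trans (hg.mono hs), hf.mono hs hn⟩

theorem cont_gr {F : Set ℕ → Set ℕ → Set ℕ} (hF : ∀ y, Cont (fun x => F x y)) :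
    Cont (fun x => gr (F x)) := by
  intro x m
  constructor
  · rintro ⟨s, n, rfl, hn⟩
    obtain ⟨t, ht, hn'⟩ := (hF _ x n).1 hn
    exact ⟨t, ht, s, n, rfl, hn'⟩
  · rintro ⟨t, ht, s, n, rfl, hn⟩
    exact ⟨s, n, rfl, (hF _ x n).2 ⟨t, ht, hn⟩⟩

/-- surjective pairing -/
def pair (u v : Set ℕ) : Set ℕ := {n | (∃ k ∈ u, n = 2 * k) ∨ (∃ k ∈ v, n = 2 * k + 1)}

/-- first projection -/
def fst (w : Set ℕ) : Set ℕ := {n | 2 * n ∈ w}

/-- second projection -/
def snd (w : Set ℕ) : Set ℕ := {n | 2 * n + 1 ∈ w}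

theorem fst_pair (u v : Set ℕ) : fst (pair u v) = u := by
  ext n
  constructor
  · rintro (⟨k, hk, h⟩ | ⟨k, hk, h⟩)
    · have : n = k := by omega
      rwa [this]
    · omega
  · intro hn
    exact Or.inl ⟨n, hn, rfl⟩

theorem snd_pair (u v : Set ℕ) : snd (pair u v) = v := by
  ext n
  constructor
  · rintro (⟨k, hk, h⟩ | ⟨k, hk, h⟩)
    · omega
    · have : n = k := by omega
      rwa [this]
  · intro hn
    exact Or.inr ⟨n, hn, rfl⟩

theorem pair_fst_snd (w : Set ℕ) : pair (fst w) (snd w) = w := by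
  ext n
  constructor
  · rintro (⟨k, hk, rfl⟩ | ⟨k, hk, rfl⟩)
    · exact hk
    · exact hk
  · intro hn
    rcases Nat.even_or_odd' n with ⟨k, rfl | rfl⟩
    · exact Or.inl ⟨k, hn, rfl⟩
    · exact Or.inr ⟨k, hn, rfl⟩

theorem cont_fst : Cont fst := fun x n => by
  constructor
  · intro hn
    exact ⟨{2 * n}, by simpa [fst] using hn, by simp [fst]⟩
  · rintro ⟨s, hs, hn⟩
    exact hs hn

theorem cont_snd : Cont snd := fun x n => by
  constructor
  · intro hn
    exact ⟨{2 * n + 1}, by simpa [snd] using hn, by simp [snd]⟩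
  · rintro ⟨s, hs, hn⟩
    exact hs hn

theorem cont_pair {f g : Set ℕ → Set ℕ} (hf : Cont f) (hg : Cont g) :
    Cont (fun x => pair (f x) (g x)) := by
  intro x n
  constructor
  · rintro (⟨k, hk, rfl⟩ | ⟨k, hk, rfl⟩)
    · obtain ⟨s, hs, h⟩ := (hf x k).1 hk
      exact ⟨s, hs, Or.inl ⟨k, h, rfl⟩⟩
    · obtain ⟨s, hs, h⟩ := (hg x k).1 hk
      exact ⟨s, hs, Or.inr ⟨k, h, rfl⟩⟩
  · rintro ⟨s, hs, (⟨k, hk, rfl⟩ | ⟨k, hk, rfl⟩)⟩
    · exact Or.inl ⟨k, hf.mono hs hk, rfl⟩
    · exact Or.inr ⟨k, hg.mono hs hk, rfl⟩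

/-! ### The six constants -/

def cI : Set ℕ := gr (fun x => x)
def cB : Set ℕ := gr (fun a => gr (fun b => gr (fun x => app a (app b x))))
def cT : Set ℕ := gr (fun a => gr (fun b => app b a))
def cP : Set ℕ := gr (fun a => gr (fun b => gr (fun x => pair (app a x) (app b x))))
def cF : Set ℕ := gr fst
def cS : Set ℕ := gr snd

theorem app_cI (x : Set ℕ) : app cI x = x := app_gr cont_id x

theorem app_cB (a b x : Set ℕ) : app (app (app cB a) b) x = app a (app b x) := by
  unfold cB
  rw [app_gr, app_gr, app_gr]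
  · exact cont_app (cont_const _) (cont_app (cont_const _) cont_id)
  · exact cont_gr fun x => cont_app (cont_const _) (cont_app cont_id (cont_const _))
  · exact cont_gr fun b => cont_gr fun x => cont_app cont_id (cont_const _)

theorem app_cT (a b : Set ℕ) : app (app cT a) b = app b a := by
  unfold cT
  rw [app_gr, app_gr]
  · exact cont_app cont_id (cont_const _)
  · exact cont_gr fun x => cont_app (cont_const _) cont_id

theorem app_cP (a b x : Set ℕ) : app (app (app cP a) b) x = pair (app a x) (app b x) := by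
  unfold cP
  rw [app_gr, app_gr, app_gr]
  · exact cont_pair (cont_app (cont_const _) cont_id) (cont_app (cont_const _) cont_id)
  · exact cont_gr fun x => cont_pair (cont_const _) (cont_app cont_id (cont_const _))
  · exact cont_gr fun b => cont_gr fun x => cont_pair (cont_app cont_id (cont_const _)) (cont_const _)

theorem app_cF (x : Set ℕ) : app cF x = fst x := app_gr cont_fst x

theorem app_cS (x : Set ℕ) : app cS x = snd x := app_gr cont_snd x

/-- the applicative subalgebra generated by the six constants -/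
inductive Gen : Set ℕ → Prop
  | cI : Gen cI
  | cB : Gen cB
  | cT : Gen cT
  | cP : Gen cP
  | cF : Gen cF
  | cS : Gen cS
  | app (a b : Set ℕ) : Gen a → Gen b → Gen (app a b)

/-- left application by `a`, as an element of the monoid of all self-maps of `Set ℕ` -/
def apE (a : Set ℕ) : Function.End (Set ℕ) := fun x => app a x

/-- evaluation at `a`, as an element of the monoid of all self-maps of `Set ℕ` -/
def tau (a : Set ℕ) : Function.End (Set ℕ) := fun x => app x a

/-- the monoid of maps `x ↦ app a x` with `a` in the subalgebra -/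
def N : Submonoid (Function.End (Set ℕ)) where
  carrier := {f | ∃ a, Gen a ∧ f = apE a}
  mul_mem' := by
    rintro f g ⟨a, ha, rfl⟩ ⟨b, hb, rfl⟩
    refine ⟨app (app cB a) b, (Gen.cB.app _ _ ha).app _ _ hb, ?_⟩
    funext x
    exact (app_cB a b x).symm
  one_mem' := ⟨cI, Gen.cI, by funext x; exact (app_cI x).symm⟩

/-- the eight generators -/
def genSet : Set (Function.End (Set ℕ)) :=
  {tau cI, tau cB, tau cT, tau cP, tau cF, tau cS, apE cB, apE cT}

theorem tau_app (a b : Set ℕ) : tau (app a b) = tau b * tau a * apE cB := by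
  funext x
  exact (app_cB x a b).symm

theorem apE_eq (a : Set ℕ) : apE a = tau a * apE cT := by
  funext x
  exact (app_cT x a).symm

theorem tau_eq (a : Set ℕ) : tau a = apE (app cT a) := by
  funext x
  exact (app_cT a x).symm

theorem tau_mem {a : Set ℕ} (ha : Gen a) : tau a ∈ Submonoid.closure genSet := by
  induction ha with
  | cI => exact Submonoid.subset_closure (by simp [genSet])
  | cB => exact Submonoid.subset_closure (by simp [genSet])
  | cT => exact Submonoid.subset_closure (by simp [genSet])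
  | cP => exact Submonoid.subset_closure (by simp [genSet])
  | cF => exact Submonoid.subset_closure (by simp [genSet])
  | cS => exact Submonoid.subset_closure (by simp [genSet])
  | app a b _ _ iha ihb =>
    rw [tau_app]
    exact mul_mem (mul_mem ihb iha) (Submonoid.subset_closure (by simp [genSet]))

theorem apE_mem {a : Set ℕ} (ha : Gen a) : apE a ∈ Submonoid.closure genSet := by
  rw [apE_eq]
  exact mul_mem (tau_mem ha) (Submonoid.subset_closure (by simp [genSet]))

theorem tau_mem_N {a : Set ℕ} (ha : Gen a) : tau a ∈ N :=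
  ⟨app cT a, Gen.cT.app _ _ ha, tau_eq a⟩

theorem closure_genSet : Submonoid.closure genSet = N := by
  apply le_antisymm
  · rw [Submonoid.closure_le]
    intro f hf
    simp only [genSet, Set.mem_insert_iff, Set.mem_singleton_iff] at hf
    rcases hf with rfl | rfl | rfl | rfl | rfl | rfl | rfl | rfl
    · exact tau_mem_N Gen.cI
    · exact tau_mem_N Gen.cB
    · exact tau_mem_N Gen.cT
    · exact tau_mem_N Gen.cP
    · exact tau_mem_N Gen.cF
    · exact tau_mem_N Gen.cS
    · exact ⟨_, Gen.cB, rfl⟩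
    · exact ⟨_, Gen.cT, rfl⟩
  · rintro f ⟨a, ha, rfl⟩
    exact apE_mem ha

theorem fg_N : Monoid.FG N := by
  rw [Monoid.fg_iff_submonoid_fg, Submonoid.fg_iff]
  refine ⟨genSet, closure_genSet, ?_⟩
  unfold genSet
  exact Set.toFinite _

/-- pairing of elements of `N` -/
def sig (f g : N) : N :=
  ⟨fun x => pair (f.1 x) (g.1 x), by
    obtain ⟨f, a, ha, rfl⟩ := f
    obtain ⟨g, b, hb, rfl⟩ := g
    refine ⟨app (app cP a) b, (Gen.cP.app _ _ ha).app _ _ hb, ?_⟩
    funext x
    exact (app_cP a b x).symm⟩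

/-- the first projection, as an element of `N` -/
def p₁ : N := ⟨fst, cF, Gen.cF, by funext x; exact (app_cF x).symm⟩

/-- the second projection, as an element of `N` -/
def p₂ : N := ⟨snd, cS, Gen.cS, by funext x; exact (app_cS x).symm⟩

theorem p₁_sig (a b : N) : p₁ * sig a b = a := by
  apply Subtype.ext
  funext x
  exact fst_pair _ _

theorem p₂_sig (a b : N) : p₂ * sig a b = b := by
  apply Subtype.ext
  funext x
  exact snd_pair _ _

theorem sig_mul (a b c : N) : sig a b * c = sig (a * c) (b * c) := rfl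

theorem sig_p : sig p₁ p₂ = 1 := by
  apply Subtype.ext
  funext x
  exact pair_fst_snd x

theorem p₁_ne_one : p₁ ≠ 1 := by
  intro h
  have h1 : fst {1} = ({1} : Set ℕ) := congrArg (fun f : N => f.1 {1}) h
  have h2 : (1 : ℕ) ∈ fst {1} := by rw [h1]; simp
  have h3 : 2 * 1 = 1 := h2
  omega

end Pool.Agent.Lib.MP_eefcda_al
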